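import Pool.Agent.H870R4.Noz.Stmts

set_option autoImplicit false

open Set Filter Topology

namespace H870N

theorem taskGlue : TaskGlue := by
  classical
  intro O F G F' G' g hO hg hF hG hF' hG' hFG
  have hnhds : ∀ w ∈ O, O ∈ 𝓝 w := fun w hw => hO.mem_nhds hw
  have hgat : ∀ w ∈ O, ContinuousAt g w := fun w hw => hg.continuousAt (hnhds w hw)
  have hneg : ∀ w ∈ O, g w < 0 → ∀ᶠ x in 𝓝 w, g x < 0 := fun w hw h =>
    (hgat w hw).eventually (gt_mem_nhds h)
  have hpos : ∀ w ∈ O, 0 < g w → ∀ᶠ x in 𝓝 w, 0 < g x := fun w hw h =>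
    (hgat w hw).eventually (lt_mem_nhds h)
  refine ⟨fun w hw => ?_, fun w hw => ?_⟩
  · rcases lt_trichotomy (g w) 0 with h | h | h
    · rw [if_pos h]
      refine (hF w hw h.le).congr_of_eventuallyEq ?_
      filter_upwards [hneg w hw h] with x hx
      exact if_pos hx
    · have hn : ¬ g w < 0 := by rw [h]; exact lt_irrefl 0
      obtain ⟨h1, h2⟩ := hFG w hw h
      rw [if_neg hn]
      have hGw := hG w hw h.ge
      have hFw := hF w hw h.le
      rw [h2] at hFw
      rw [← hasFDerivWithinAt_univ]
      have hu : (univ : Set ℂ) = {x | g x < 0} ∪ {x | ¬ g x < 0} := by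
        ext x
        simp only [mem_univ, mem_union, mem_setOf_eq, true_iff]
        exact em _
      rw [hu]
      refine HasFDerivWithinAt.union ?_ ?_
      · refine hFw.hasFDerivWithinAt.congr (fun x hx => if_pos hx) ?_
        rw [if_neg hn]
        exact h1.symm
      · exact hGw.hasFDerivWithinAt.congr (fun x hx => if_neg hx) (if_neg hn)
    · have hn : ¬ g w < 0 := not_lt.mpr h.le
      rw [if_neg hn]
      refine (hG w hw h.le).congr_of_eventuallyEq ?_
      filter_upwards [hpos w hw h] with x hx
      exact if_neg (not_lt.mpr hx.le)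
  · rcases lt_trichotomy (g w) 0 with h | h | h
    · have h1 : ContinuousAt F' w := by
        refine (hF' w ⟨hw, h.le⟩).continuousAt ?_
        filter_upwards [hneg w hw h, hnhds w hw] with x hx hx'
        exact ⟨hx', hx.le⟩
      refine ContinuousAt.continuousWithinAt ?_
      refine h1.congr ?_
      filter_upwards [hneg w hw h] with x hx
      exact (if_pos hx).symm
    · have hn : ¬ g w < 0 := by rw [h]; exact lt_irrefl 0
      obtain ⟨-, h2⟩ := hFG w hw h
      have hu : O = {x | x ∈ O ∧ g x < 0} ∪ {x | x ∈ O ∧ ¬ g x < 0} := by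
        ext x
        simp only [mem_union, mem_setOf_eq]
        tauto
      rw [hu]
      refine ContinuousWithinAt.union ?_ ?_
      · refine ((hF' w ⟨hw, h.le⟩).mono (fun x hx => ⟨hx.1, hx.2.le⟩)).congr
          (fun x hx => if_pos hx.2) ?_
        show (if g w < 0 then F' w else G' w) = F' w
        rw [if_neg hn]
        exact h2.symm
      · refine ((hG' w ⟨hw, h.ge⟩).mono (fun x hx => ⟨hx.1, not_lt.mp hx.2⟩)).congr
          (fun x hx => if_neg hx.2) (if_neg hn)
    · have h1 : ContinuousAt G' w := by
        refine (hG' w ⟨hw, h.le⟩).continuousAt ?_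
        filter_upwards [hpos w hw h, hnhds w hw] with x hx hx'
        exact ⟨hx', hx.le⟩
      refine ContinuousAt.continuousWithinAt ?_
      refine h1.congr ?_
      filter_upwards [hpos w hw h] with x hx
      exact (if_neg (not_lt.mpr hx.le)).symm

end H870N
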